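import Pool.Agent.Q275.SpecMinor

set_option autoImplicit false

namespace Pool.Agent.Results.MP_aba9fe_co.Intermediate

open Pool.Agent.Q275.Spec

/-- **Intermediate spectator numbers.** For every finite multigraph `G` (with a vertex), every
integer `i` with `sf G ≤ i ≤ sp G` is the spectator number of a graph obtained from `G` by adding
edges. More is true: this holds for all `i` with `sf G ≤ i < |V(G)|`. -/
theorem result (V : Type) [Finite V] [Nonempty V] (G : MG V) :
    (∀ i : ℕ, sf G ≤ i → i ≤ sp G → ∃ F : MG V, Supergraph G F ∧ sp F = i) ∧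
    ∀ i : ℕ, sf G ≤ i → i < Nat.card V → ∃ F : MG V, Supergraph G F ∧ sp F = i := by
  refine ⟨fun i h1 h2 => main V G i h1 ?_, main V G⟩
  have h3 := usp_pos G
  have h4 := usp_le_card G
  unfold sp at h2
  omega

end Pool.Agent.Results.MP_aba9fe_co.Intermediate
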